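import Pool.Agent.H38.AE.Targets

/-!
# Module F: energy of a box of exponent parts
-/

set_option autoImplicit false

namespace Pool.Agent.H39.AE

open Pool.Agent.H38.AE Finset

theorem one_le_pr {ι : Type} (s : Finset ι) (f : ι → ℝ) (h : ∀ i ∈ s, 1 ≤ f i) :
    1 ≤ ∏ i ∈ s, f i := by
  classical
  induction s using Finset.induction_on with
  | empty => simp
  | insert a s ha ih =>
    rw [Finset.prod_insert ha]
    exact one_le_mul_of_one_le_of_one_le (h a (Finset.mem_insert_self a s))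
      (ih fun i hi => h i (Finset.mem_insert_of_mem hi))

/-- the power sum of a character over a dyadic interval -/
noncomputable def S {q : ℕ} [NeZero q] (Y j : ℕ) (χ : DirichletCharacter ℂ q) : ℂ :=
  ∑ y ∈ Ico Y (2 * Y), χ ((y : ZMod q) ^ (j + 1))

theorem norm_S_le {q : ℕ} [NeZero q] (Y j : ℕ) (χ : DirichletCharacter ℂ q) :
    ‖S Y j χ‖ ≤ Y := by
  unfold S
  refine (norm_sum_le _ _).trans ?_
  refine (Finset.sum_le_sum fun y _ => DirichletCharacter.norm_le_one χ _).trans ?_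
  rw [Finset.sum_const, Nat.card_Ico, nsmul_eq_mul, mul_one]
  have : 2 * Y - Y = Y := by omega
  rw [this]

theorem card_char (q : ℕ) [NeZero q] :
    ((Finset.univ : Finset (DirichletCharacter ℂ q)).card : ℝ) = q.totient := by
  rw [Finset.card_univ, ← Nat.card_eq_fintype_card,
    DirichletCharacter.card_eq_totient_of_hasEnoughRootsOfUnity]

theorem prod_norm_S {K q : ℕ} [NeZero q] (Y : Fin K → ℕ) (χ : DirichletCharacter ℂ q) :
    ∑ v ∈ Fintype.piFinset (fun j => Ico (Y j) (2 * Y j)),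
      χ (∏ j, ((v j : ℕ) : ZMod q) ^ (j.val + 1)) = ∏ j, S (Y j) j.val χ := by
  unfold S
  rw [Finset.prod_univ_sum]
  refine Finset.sum_congr rfl fun v _ => ?_
  rw [map_prod]

/-- the bound for one factor -/
theorem one_factor {C0 N q Yj A M w : ℝ} {n : ℕ} (hC0 : 1 ≤ C0) (hN : 1 ≤ N) (hq : 1 ≤ q)
    (hn : 1 ≤ n) (hY : 1 ≤ Yj) (hA : 0 < A) (hM : M = max 1 (A / Real.sqrt q))
    (hw : A ^ w = Yj) (hw0 : 0 < w) (hnw : w * n ≤ 2) (avg : ℝ) (h0 : 0 ≤ avg)
    (hav : avg ≤ C0 * N * (Yj ^ n + Yj ^ (2 * n) / q)) :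
    avg ^ ((1 : ℝ) / n) ≤ (2 * C0 * N) * (Yj * M ^ w) := by
  have hM1 : 1 ≤ M := by rw [hM]; exact le_max_left _ _
  have hM2 : A / Real.sqrt q ≤ M := by rw [hM]; exact le_max_right _ _
  have hn0 : (0 : ℝ) < n := by exact_mod_cast hn
  have hsq : 0 < Real.sqrt q := Real.sqrt_pos.2 (by linarith)
  have hq0 : 0 < q := by linarith
  have hMw : 1 ≤ M ^ w := Real.one_le_rpow hM1 hw0.le
  have hMn : (M ^ w) ^ n = M ^ (w * n) := by
    rw [← Real.rpow_natCast (M ^ w), ← Real.rpow_mul (by linarith)]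
  have hYn : Yj ^ n = A ^ (w * n) := by
    rw [← hw, ← Real.rpow_natCast (A ^ w), ← Real.rpow_mul hA.le]
  have h1 : Yj ^ n / q ≤ (M ^ w) ^ n := by
    rw [hMn, hYn]
    have hwn : 0 ≤ w * n := by positivity
    calc A ^ (w * n) / q ≤ A ^ (w * n) / Real.sqrt q ^ (w * n) := by
          refine div_le_div_of_nonneg_left (by positivity) (by positivity) ?_
          rw [Real.sqrt_eq_rpow, ← Real.rpow_mul hq0.le]
          calc q ^ (1 / 2 * (w * n)) ≤ q ^ (1 : ℝ) :=
                Real.rpow_le_rpow_of_exponent_le hq (by linarith)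
            _ = q := Real.rpow_one q
      _ = (A / Real.sqrt q) ^ (w * n) := by rw [Real.div_rpow hA.le hsq.le]
      _ ≤ M ^ (w * n) := Real.rpow_le_rpow (by positivity) hM2 hwn
  have hY0 : 0 < Yj := by linarith
  have h2 : Yj ^ n + Yj ^ (2 * n) / q ≤ 2 * (Yj * M ^ w) ^ n := by
    have e1 : Yj ^ (2 * n) / q = Yj ^ n * (Yj ^ n / q) := by
      rw [two_mul, pow_add]; ring
    rw [e1, mul_pow]
    have e2 : Yj ^ n * (Yj ^ n / q) ≤ Yj ^ n * (M ^ w) ^ n :=
      mul_le_mul_of_nonneg_left h1 (by positivity)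
    have e3 : Yj ^ n * 1 ≤ Yj ^ n * (M ^ w) ^ n :=
      mul_le_mul_of_nonneg_left (one_le_pow₀ hMw) (by positivity)
    linarith
  have hB : 1 ≤ 2 * C0 * N := by nlinarith
  have h3 : avg ≤ (2 * C0 * N) * (Yj * M ^ w) ^ n := by
    refine hav.trans ?_
    calc C0 * N * (Yj ^ n + Yj ^ (2 * n) / q) ≤ C0 * N * (2 * (Yj * M ^ w) ^ n) :=
          mul_le_mul_of_nonneg_left h2 (by positivity)
      _ = (2 * C0 * N) * (Yj * M ^ w) ^ n := by ring
  calc avg ^ ((1 : ℝ) / n) ≤ ((2 * C0 * N) * (Yj * M ^ w) ^ n) ^ ((1 : ℝ) / n) :=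
        Real.rpow_le_rpow h0 h3 (by positivity)
    _ = (2 * C0 * N) ^ ((1 : ℝ) / n) * (Yj * M ^ w) := by
        rw [Real.mul_rpow (by positivity) (by positivity), ← Real.rpow_natCast (Yj * M ^ w),
          ← Real.rpow_mul (by positivity), mul_one_div_cancel hn0.ne', Real.rpow_one]
    _ ≤ (2 * C0 * N) * (Yj * M ^ w) := by
        refine mul_le_mul_of_nonneg_right ?_ (by positivity)
        calc (2 * C0 * N) ^ ((1 : ℝ) / n) ≤ (2 * C0 * N) ^ (1 : ℝ) := by
              refine Real.rpow_le_rpow_of_exponent_le hB ?_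
              rw [div_le_one hn0]
              exact_mod_cast hn
          _ = _ := Real.rpow_one _

/-- the average of the product over `J` -/
theorem avg_bound (hHO : T_HO) {K q : ℕ} [NeZero q] (Y : Fin K → ℕ) (J : Finset (Fin K))
    (C0 N1 : ℝ) (nmax : ℕ) (d : ℝ) (hd : 0 < d) (hnmax : nmax = ⌈1 / d⌉₊) (N : ℝ)
    (hC0 : 1 ≤ C0) (hN1 : 1 ≤ N1) (hN : 1 < N)
    (hJ : ∀ j ∈ J, N ^ d ≤ (Y j : ℝ) ∧ 2 ≤ Y j) (hJne : J.Nonempty)
    (hAN : (∏ j ∈ J, (Y j : ℝ)) ≤ N)
    (hDM : ∀ j ∈ J, ∀ n, 1 ≤ n → n ≤ nmax →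
      (∑ χ : DirichletCharacter ℂ q, ‖S (Y j) j.val χ‖ ^ (2 * n)) / (q.totient : ℝ) ≤
        C0 * N1 * ((Y j : ℝ) ^ n + (Y j : ℝ) ^ (2 * n) / q)) :
    (∑ χ : DirichletCharacter ℂ q, ∏ j ∈ J, ‖S (Y j) j.val χ‖ ^ 2) / (q.totient : ℝ) ≤
      (2 * C0 * N1) ^ J.card * wt q (∏ j ∈ J, (Y j : ℝ)) := by
  set A : ℝ := ∏ j ∈ J, (Y j : ℝ) with hA
  have hYr : ∀ j ∈ J, (2 : ℝ) ≤ Y j := fun j hj => by exact_mod_cast (hJ j hj).2
  have hqR : (1 : ℝ) ≤ q := by exact_mod_cast NeZero.one_le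
  have hYA : ∀ j ∈ J, (Y j : ℝ) ≤ A := by
    intro j hj
    rw [hA, ← Finset.mul_prod_erase J _ hj]
    have : 1 ≤ ∏ x ∈ J.erase j, (Y x : ℝ) :=
      one_le_pr _ _ fun x hx => by linarith [hYr x (Finset.mem_of_mem_erase hx)]
    have h2 := hYr j hj
    nlinarith
  obtain ⟨j₀, hj₀⟩ := hJne
  have hA2 : 2 ≤ A := (hYr j₀ hj₀).trans (hYA j₀ hj₀)
  have hA1 : 1 < A := by linarith
  have hA0 : 0 < A := by linarith
  set w : Fin K → ℝ := fun j => Real.logb A (Y j) with hw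
  have hw0 : ∀ j ∈ J, 0 < w j := fun j hj => Real.logb_pos hA1 (by linarith [hYr j hj])
  have hw1 : ∀ j ∈ J, w j ≤ 1 := by
    intro j hj
    rw [hw]
    simp only
    rw [Real.logb_le_iff_le_rpow hA1 (by linarith [hYr j hj]), Real.rpow_one]
    exact hYA j hj
  have hwA : ∀ j ∈ J, A ^ w j = Y j := fun j hj =>
    Real.rpow_logb hA0 hA1.ne' (by linarith [hYr j hj])
  have hwsum : ∑ j ∈ J, w j = 1 := by
    rw [hw]
    rw [← Real.logb_prod J (fun j => (Y j : ℝ)) (fun j hj => by linarith [hYr j hj])]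
    exact Real.logb_self_eq_one hA1
  set n : Fin K → ℕ := fun j => ⌈1 / w j⌉₊ with hn
  have hn1 : ∀ j ∈ J, 1 ≤ n j := fun j hj => Nat.ceil_pos.2 (by have := hw0 j hj; positivity)
  have hnw : ∀ j ∈ J, w j * n j ≤ 2 := by
    intro j hj
    have h1 : (n j : ℝ) < 1 / w j + 1 := Nat.ceil_lt_add_one (by have := hw0 j hj; positivity)
    have h2 : w j * n j ≤ w j * (1 / w j + 1) :=
      mul_le_mul_of_nonneg_left h1.le (hw0 j hj).le
    have h3 : w j * (1 / w j + 1) = 1 + w j := by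
      have := (hw0 j hj).ne'
      field_simp
    linarith [hw1 j hj]
  have hnm : ∀ j ∈ J, n j ≤ nmax := by
    intro j hj
    rw [hnmax]
    apply Nat.ceil_mono
    refine one_div_le_one_div_of_le hd ?_
    have hlA : 0 < Real.log A := Real.log_pos hA1
    have hlN : 0 < Real.log N := Real.log_pos hN
    have h1 : d * Real.log N ≤ Real.log (Y j) := by
      rw [← Real.log_rpow (by linarith)]
      exact Real.log_le_log (by positivity) (hJ j hj).1
    have h2 : Real.log A ≤ Real.log N := Real.log_le_log hA0 hAN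
    rw [hw]
    simp only
    rw [Real.logb, le_div_iff₀ hlA]
    nlinarith
  have hsum1 : ∑ j ∈ J, (1 : ℝ) / n j ≤ 1 := by
    refine le_trans (Finset.sum_le_sum (g := w) fun j hj => ?_) hwsum.le
    have h1 : 1 / w j ≤ n j := Nat.le_ceil _
    have h2 : (0 : ℝ) < 1 / w j := by have := hw0 j hj; positivity
    calc (1 : ℝ) / n j ≤ 1 / (1 / w j) := one_div_le_one_div_of_le h2 h1
      _ = w j := by rw [one_div_one_div]
  have hho := hHO (Fin K) (DirichletCharacter ℂ q) Finset.univ J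
    (fun j χ => ‖S (Y j) j.val χ‖) n Finset.univ_nonempty
    (fun j _ χ _ => norm_nonneg _) hn1 hsum1
  rw [card_char] at hho
  refine hho.trans ?_
  set M : ℝ := max 1 (A / Real.sqrt q) with hM
  have hM0 : 0 < M := lt_of_lt_of_le one_pos (le_max_left _ _)
  have hφ : (0 : ℝ) < q.totient := by
    exact_mod_cast Nat.totient_pos.2 (Nat.pos_of_ne_zero (NeZero.ne q))
  calc ∏ j ∈ J, ((∑ χ : DirichletCharacter ℂ q, ‖S (Y j) j.val χ‖ ^ (2 * n j)) /
        (q.totient : ℝ)) ^ ((1 : ℝ) / n j)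
      ≤ ∏ j ∈ J, ((2 * C0 * N1) * ((Y j : ℝ) * M ^ w j)) := by
        refine Finset.prod_le_prod (fun j _ => by positivity) fun j hj => ?_
        exact one_factor hC0 hN1 hqR (hn1 j hj) (by linarith [hYr j hj]) hA0 hM (hwA j hj)
          (hw0 j hj) (hnw j hj) _ (by positivity) (hDM j hj (n j) (hn1 j hj) (hnm j hj))
    _ = (2 * C0 * N1) ^ J.card * (A * M) := by
        rw [Finset.prod_mul_distrib, Finset.prod_const, Finset.prod_mul_distrib,
          ← Real.rpow_sum_of_pos hM0, hwsum, Real.rpow_one]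
    _ ≤ (2 * C0 * N1) ^ J.card * wt q A := by
        refine mul_le_mul_of_nonneg_left ?_ (by positivity)
        have h1 : M ≤ 1 + A / Real.sqrt q := by
          rw [hM]
          refine max_le ?_ ?_
          · have : 0 ≤ A / Real.sqrt q := by positivity
            linarith
          · linarith
        unfold wt
        calc A * M ≤ A * (1 + A / Real.sqrt q) := mul_le_mul_of_nonneg_left h1 hA0.le
          _ = A + A ^ 2 / Real.sqrt q := by ring

theorem wt_mono {q : ℕ} {a b : ℝ} (ha : 0 ≤ a) (hab : a ≤ b) : wt q a ≤ wt q b := by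
  unfold wt
  gcongr

theorem le_wt {q : ℕ} {a : ℝ} : a ≤ wt q a := by
  unfold wt
  have : 0 ≤ a ^ 2 / Real.sqrt q := by positivity
  linarith

theorem pf_F : T_DM → T_HO → T_O → T_F := by
  classical
  intro hDM hHO hO K ε hε
  set d : ℝ := ε / (4 * (K + 1)) with hd
  have hd0 : 0 < d := by positivity
  have hdK : d * K ≤ ε / 4 := by
    rw [hd, div_mul_eq_mul_div, div_le_div_iff₀ (by positivity) (by norm_num)]
    nlinarith
  have hC : ∀ (j : Fin K) (n : ℕ), ∃ C : ℝ, 0 < C ∧ (1 ≤ n → ∀ (q : ℕ) [NeZero q] (Y : ℕ),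
      1 ≤ Y → ∑ χ : DirichletCharacter ℂ q, ‖S Y j.val χ‖ ^ (2 * n) ≤
      (q.totient : ℝ) * (C * ((q : ℝ) * Y) ^ d * ((Y : ℝ) ^ n + (Y : ℝ) ^ (2 * n) / q))) := by
    intro j n
    by_cases hn : 1 ≤ n
    · obtain ⟨C, hC, h⟩ := hDM (j.val + 1) n d (by omega) hn hd0
      exact ⟨C, hC, fun _ q _ Y hY => h q Y hY⟩
    · exact ⟨1, one_pos, fun h => absurd h hn⟩
  choose Cf hCf0 hCf using hC
  set nmax := ⌈1 / d⌉₊ with hnmax
  set C0 : ℝ := 1 + ∑ j, ∑ n ∈ Finset.range (nmax + 1), Cf j n with hC0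
  have hC01 : 1 ≤ C0 := by
    have : 0 ≤ ∑ j, ∑ n ∈ Finset.range (nmax + 1), Cf j n :=
      Finset.sum_nonneg fun j _ => Finset.sum_nonneg fun n _ => (hCf0 j n).le
    linarith
  have hCfle : ∀ j n, n ≤ nmax → Cf j n ≤ C0 := by
    intro j n hn
    have h1 : Cf j n ≤ ∑ n ∈ Finset.range (nmax + 1), Cf j n :=
      Finset.single_le_sum (f := fun n => Cf j n) (fun i _ => (hCf0 j i).le)
        (Finset.mem_range.2 (by omega))
    have h2 : ∑ n ∈ Finset.range (nmax + 1), Cf j n ≤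
        ∑ j, ∑ n ∈ Finset.range (nmax + 1), Cf j n :=
      Finset.single_le_sum (f := fun j => ∑ n ∈ Finset.range (nmax + 1), Cf j n)
        (fun i _ => Finset.sum_nonneg fun n _ => (hCf0 i n).le) (Finset.mem_univ j)
    linarith
  refine ⟨(2 * C0) ^ K, by positivity, ?_⟩
  intro N q _ hqN Y hY hYN
  have hq1 : 1 ≤ q := NeZero.one_le
  have hN1 : 1 ≤ N := hq1.trans hqN
  have hNR : (1 : ℝ) ≤ N := by exact_mod_cast hN1
  have hφ : (0 : ℝ) < q.totient := by
    exact_mod_cast Nat.totient_pos.2 (Nat.pos_of_ne_zero (NeZero.ne q))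
  set P := Fintype.piFinset (fun j => Ico (Y j) (2 * Y j)) with hP
  set card : ℕ := ((P ×ˢ P).filter
    (fun t => (∏ j, ((t.1 j : ℕ) : ZMod q) ^ (j.val + 1)) =
        ∏ j, ((t.2 j : ℕ) : ZMod q) ^ (j.val + 1) ∧
      IsUnit (∏ j, ((t.1 j : ℕ) : ZMod q) ^ (j.val + 1)))).card with hcard
  have hid : ∑ χ : DirichletCharacter ℂ q, ∏ j, ‖S (Y j) j.val χ‖ ^ 2 =
      (q.totient : ℝ) * card := by
    rw [hcard, ← hO q (Fin K → ℕ) P (fun v => ∏ j, ((v j : ℕ) : ZMod q) ^ (j.val + 1))]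
    refine Finset.sum_congr rfl fun χ _ => ?_
    rw [hP, prod_norm_S, norm_prod, Finset.prod_pow]
  -- splitting
  set J : Finset (Fin K) := Finset.univ.filter (fun j => (N : ℝ) ^ d ≤ (Y j : ℝ) ∧ 2 ≤ Y j)
    with hJdef
  have hNd : 1 ≤ (N : ℝ) ^ d := Real.one_le_rpow hNR hd0.le
  have hout : ∀ j, j ∉ J → (Y j : ℝ) ≤ (N : ℝ) ^ d := by
    intro j hj
    rw [hJdef, Finset.mem_filter] at hj
    by_contra hcon
    push Not at hcon
    apply hj
    refine ⟨Finset.mem_univ _, hcon.le, ?_⟩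
    have h1 : (1 : ℝ) < Y j := lt_of_le_of_lt hNd hcon
    have : 1 < Y j := by exact_mod_cast h1
    omega
  have hprod : ∀ χ : DirichletCharacter ℂ q, ∏ j, ‖S (Y j) j.val χ‖ ^ 2 ≤
      (((N : ℝ) ^ d) ^ 2) ^ K * ∏ j ∈ J, ‖S (Y j) j.val χ‖ ^ 2 := by
    intro χ
    rw [← Finset.prod_mul_prod_compl J, mul_comm]
    refine mul_le_mul_of_nonneg_right ?_ (by positivity)
    calc ∏ j ∈ Jᶜ, ‖S (Y j) j.val χ‖ ^ 2 ≤ ∏ _j ∈ Jᶜ, ((N : ℝ) ^ d) ^ 2 := by
          refine Finset.prod_le_prod (fun j _ => by positivity) fun j hj => ?_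
          have h1 := (norm_S_le (Y j) j.val χ).trans (hout j (Finset.mem_compl.1 hj))
          gcongr
      _ = (((N : ℝ) ^ d) ^ 2) ^ (Jᶜ).card := by rw [Finset.prod_const]
      _ ≤ (((N : ℝ) ^ d) ^ 2) ^ K := by
          refine pow_le_pow_right₀ (one_le_pow₀ hNd) ?_
          exact (Finset.card_le_univ _).trans (by simp)
  have hYr : ∀ j, (1 : ℝ) ≤ Y j := fun j => by exact_mod_cast hY j
  set A : ℝ := ((∏ j, Y j : ℕ) : ℝ) with hAdef
  have hAeq : A = ∏ j, (Y j : ℝ) := by rw [hAdef]; push_cast; rfl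
  have hAN : A ≤ N := by rw [hAdef]; exact_mod_cast hYN
  have hAJ : ∏ j ∈ J, (Y j : ℝ) ≤ A := by
    rw [hAeq, ← Finset.prod_mul_prod_compl J (fun j => (Y j : ℝ))]
    exact le_mul_of_one_le_right (by positivity) (one_le_pr _ _ fun j _ => hYr j)
  have hAJ1 : 1 ≤ ∏ j ∈ J, (Y j : ℝ) := one_le_pr _ _ fun j _ => hYr j
  have hA1 : 1 ≤ A := hAJ1.trans hAJ
  -- the average over the characters
  have havg : (∑ χ : DirichletCharacter ℂ q, ∏ j ∈ J, ‖S (Y j) j.val χ‖ ^ 2) /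
      (q.totient : ℝ) ≤ (2 * C0) ^ K * ((N : ℝ) ^ (2 * d)) ^ K * wt q A := by
    have hN2d : 1 ≤ (N : ℝ) ^ (2 * d) := Real.one_le_rpow hNR (by positivity)
    by_cases hJe : J = ∅
    · rw [hJe]
      simp only [Finset.prod_empty]
      rw [Finset.sum_const, nsmul_eq_mul, card_char, mul_one, div_self hφ.ne']
      have e1 : 1 ≤ (2 * C0) ^ K := one_le_pow₀ (by linarith)
      have e2 : 1 ≤ ((N : ℝ) ^ (2 * d)) ^ K := one_le_pow₀ hN2d
      have e3 : 1 ≤ wt q A := hA1.trans le_wt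
      have e4 : 1 ≤ (2 * C0) ^ K * ((N : ℝ) ^ (2 * d)) ^ K := one_le_mul_of_one_le_of_one_le e1 e2
      exact one_le_mul_of_one_le_of_one_le e4 e3
    · obtain ⟨j₀, hj₀⟩ := Finset.nonempty_iff_ne_empty.2 hJe
      have hj₀' := hj₀
      rw [hJdef, Finset.mem_filter] at hj₀'
      have hN1' : (1 : ℝ) < N := by
        have h2 : (2 : ℝ) ≤ Y j₀ := by exact_mod_cast hj₀'.2.2
        have h3 : (Y j₀ : ℝ) ≤ A := by
          rw [hAeq, ← Finset.mul_prod_erase Finset.univ _ (Finset.mem_univ j₀)]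
          have : 1 ≤ ∏ x ∈ Finset.univ.erase j₀, (Y x : ℝ) :=
            one_le_pr _ _ fun x _ => hYr x
          nlinarith
        linarith
      have hb := avg_bound hHO Y J C0 ((N : ℝ) ^ (2 * d)) nmax d hd0 hnmax N hC01 hN2d hN1'
        (fun j hj => (Finset.mem_filter.1 hj).2) ⟨j₀, hj₀⟩ (hAJ.trans hAN) (by
          intro j _ n hn hnm
          rw [div_le_iff₀ hφ]
          refine (hCf j n hn q (Y j) (hY j)).trans ?_
          rw [mul_comm (q.totient : ℝ)]
          refine mul_le_mul_of_nonneg_right ?_ hφ.le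
          have hYN' : (Y j : ℝ) ≤ N := by
            have h3 : (Y j : ℝ) ≤ A := by
              rw [hAeq, ← Finset.mul_prod_erase Finset.univ _ (Finset.mem_univ j)]
              have : 1 ≤ ∏ x ∈ Finset.univ.erase j, (Y x : ℝ) :=
                one_le_pr _ _ fun x _ => hYr x
              have := hYr j
              nlinarith
            linarith
          have hqN' : (q : ℝ) ≤ N := by exact_mod_cast hqN
          have e1 : ((q : ℝ) * Y j) ^ d ≤ (N : ℝ) ^ (2 * d) := by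
            calc ((q : ℝ) * Y j) ^ d ≤ ((N : ℝ) * N) ^ d := by
                  refine Real.rpow_le_rpow (by positivity) ?_ hd0.le
                  exact mul_le_mul hqN' hYN' (by positivity) (by positivity)
              _ = (N : ℝ) ^ (2 * d) := by
                  rw [Real.mul_rpow (by positivity) (by positivity),
                    ← Real.rpow_add (by linarith)]
                  congr 1
                  ring
          refine mul_le_mul_of_nonneg_right ?_ (by positivity)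
          exact mul_le_mul (hCfle j n hnm) e1 (by positivity) (by linarith))
      refine hb.trans ?_
      rw [mul_pow (2 * C0)]
      refine mul_le_mul ?_ (wt_mono (by linarith) hAJ) (le_trans (by linarith) le_wt)
        (by positivity)
      have hcK : J.card ≤ K := (Finset.card_le_univ _).trans (by simp)
      exact mul_le_mul (pow_le_pow_right₀ (by linarith) hcK) (pow_le_pow_right₀ hN2d hcK)
        (by positivity) (by positivity)
  have hsumle : (q.totient : ℝ) * card ≤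
      (((N : ℝ) ^ d) ^ 2) ^ K * ∑ χ : DirichletCharacter ℂ q, ∏ j ∈ J, ‖S (Y j) j.val χ‖ ^ 2 := by
    rw [← hid, Finset.mul_sum]
    exact Finset.sum_le_sum fun χ _ => hprod χ
  have hfin : (card : ℝ) ≤ (((N : ℝ) ^ d) ^ 2) ^ K *
      ((2 * C0) ^ K * ((N : ℝ) ^ (2 * d)) ^ K * wt q A) := by
    rw [div_le_iff₀ hφ] at havg
    have h1 := hsumle.trans (mul_le_mul_of_nonneg_left havg (by positivity))
    have h2 : (q.totient : ℝ) * card ≤ (q.totient : ℝ) * ((((N : ℝ) ^ d) ^ 2) ^ K *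
      ((2 * C0) ^ K * ((N : ℝ) ^ (2 * d)) ^ K * wt q A)) := by
      refine h1.trans (le_of_eq ?_)
      ring
    exact le_of_mul_le_mul_left h2 hφ
  refine hfin.trans ?_
  have hN0 : (0 : ℝ) < N := by linarith
  have e5 : (((N : ℝ) ^ d) ^ 2) ^ K * ((N : ℝ) ^ (2 * d)) ^ K ≤ (N : ℝ) ^ ε := by
    rw [← Real.rpow_natCast, ← Real.rpow_natCast, ← Real.rpow_natCast, ← Real.rpow_mul hN0.le,
      ← Real.rpow_mul hN0.le, ← Real.rpow_mul hN0.le, ← Real.rpow_add hN0]
    refine Real.rpow_le_rpow_of_exponent_le hNR ?_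
    push_cast
    linarith
  have hwt0 : 0 ≤ wt q A := le_trans (by linarith) le_wt
  calc (((N : ℝ) ^ d) ^ 2) ^ K * ((2 * C0) ^ K * ((N : ℝ) ^ (2 * d)) ^ K * wt q A)
      = (2 * C0) ^ K * ((((N : ℝ) ^ d) ^ 2) ^ K * ((N : ℝ) ^ (2 * d)) ^ K) * wt q A := by ring
    _ ≤ (2 * C0) ^ K * (N : ℝ) ^ ε * wt q A := by
        refine mul_le_mul_of_nonneg_right ?_ hwt0
        exact mul_le_mul_of_nonneg_left e5 (by positivity)

end Pool.Agent.H39.AE
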